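import Pool.Agent.H21.Sos5

set_option autoImplicit false

namespace Pool.Agent.Results.MP_b10ab5_co.Moebius
open Pool.Agent.H21.Sos

/-- Wagner's sum-of-squares form fails for the Moebius ladder on 8 vertices (edge `g` joins
`src g` and `tgt g`) and the two opposite rim edges `10 = {0,1}` and `11 = {4,5}`, even when the
signs may depend on the forest `A` and not only on its cycle. -/
theorem result :
    ∀ (strict : Bool) (c : Finset (Fin 12) → Finset (Fin 12) → ℤ),
      (∀ S A, c S A = 1 ∨ c S A = -1) →
      rayleigh src tgt 10 11 ≠ sos src tgt strict 10 11 c := by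
  intro strict c hc h
  cases strict
  · exact no_loose c hc h
  · exact no_strict c hc h

end Pool.Agent.Results.MP_b10ab5_co.Moebius
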